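import Pool.Agent.V11101.RTG

/-!
# Condition (b) cannot be replaced by uniform regularity (disproof of Q1)

There is a compact `ℝ`-tree `T` and a set `W ⊆ F(T)` which is bounded, satisfies condition (a) and
is uniformly regular, but is not relatively weakly compact.
-/

open Pool.Agent.V11101.LF Pool.Agent.V11101.RT

theorem Pool.Agent.Results.MP_13bb8c_an.RegularNotWeaklyCompact.result :
    (∃ (T : Type) (_ : MetricSpace T) (o : T) (W : Set (Free T o)),
      IsRTree T ∧ CompactSpace T ∧ Bornology.IsBounded W ∧ CondA W ∧ UniformlyRegular W ∧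
        ¬ RelWeaklyCompact W) ∧
    ¬ ∀ (T : Type) (_ : MetricSpace T) (o : T), IsRTree T → ∀ W : Set (Free T o),
      (RelWeaklyCompact W ↔ Bornology.IsBounded W ∧ CondA W ∧ UniformlyRegular W) := by
  have h : ∃ (T : Type) (_ : MetricSpace T) (o : T) (W : Set (Free T o)),
      IsRTree T ∧ CompactSpace T ∧ Bornology.IsBounded W ∧ CondA W ∧ UniformlyRegular W ∧
        ¬ RelWeaklyCompact W :=
    ⟨T, inferInstance, root, W₀, isRTree, inferInstance, bounded, condA, uniformlyRegular,
      not_relWeaklyCompact⟩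
  refine ⟨h, fun hall => ?_⟩
  obtain ⟨T, hT, o, W, h1, _, h2, h3, h4, h5⟩ := h
  exact h5 ((hall T hT o h1 W).2 ⟨h2, h3, h4⟩)
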